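import Mathlib

/-!
# ST11: a Loewner step

If the quadratic forms of `G` and of `G D` are positive (resp. nonnegative), `D` diagonal with
positive entries, then the quadratic form of `G D^s` is positive for `0 ≤ s < 1`.
-/

open Finset MeasureTheory

namespace Pool.Agent.ST11

theorem loewner {n : ℕ} {G : ℕ → ℕ → ℝ} {d : ℕ → ℝ} (hd : ∀ j < n, 0 < d j)
    (h1 : ∀ w : ℕ → ℝ, (∃ j < n, w j ≠ 0) →
      0 < ∑ j ∈ range n, ∑ k ∈ range n, G j k * (w j * w k))
    (h2 : ∀ w : ℕ → ℝ, 0 ≤ ∑ j ∈ range n, ∑ k ∈ range n, G j k * d k * (w j * w k))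
    {s : ℝ} (hs : 0 ≤ s) (hs1 : s < 1) (w : ℕ → ℝ) (hw : ∃ j < n, w j ≠ 0) :
    0 < ∑ j ∈ range n, ∑ k ∈ range n, G j k * d k ^ s * (w j * w k) := by
  rcases hs.eq_or_lt with rfl | hs0
  · simpa using h1 w hw
  obtain ⟨μ, hμ⟩ := Real.exists_measure_rpow_eq_integral_rpowIntegrand₀₁ (p := s) ⟨hs0, hs1⟩
  -- the integrand
  set F : ℝ → ℝ := fun t => ∑ j ∈ range n, ∑ k ∈ range n,
    G j k * Real.rpowIntegrand₀₁ s t (d k) * (w j * w k) with hF
  have hint : ∀ j ∈ range n, ∀ k ∈ range n, IntegrableOn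
      (fun t => G j k * Real.rpowIntegrand₀₁ s t (d k) * (w j * w k)) (Set.Ioi 0) μ := by
    intro j _ k hk
    have := (hμ (d k) (hd k (mem_range.mp hk)).le).1
    exact (this.const_mul _).mul_const _
  have hFint : IntegrableOn F (Set.Ioi 0) μ := by
    refine integrable_finsetSum _ (fun j hj => integrable_finsetSum _ (fun k hk => ?_))
    exact hint j hj k hk
  have hval : ∫ t in Set.Ioi 0, F t ∂μ
      = ∑ j ∈ range n, ∑ k ∈ range n, G j k * d k ^ s * (w j * w k) := by
    rw [hF, integral_finsetSum]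
    · refine Finset.sum_congr rfl (fun j hj => ?_)
      rw [integral_finsetSum]
      · refine Finset.sum_congr rfl (fun k hk => ?_)
        rw [integral_mul_const, integral_const_mul, ← (hμ (d k) (hd k (mem_range.mp hk)).le).2]
      · exact fun k hk => hint j hj k hk
    · exact fun j hj => integrable_finsetSum _ (fun k hk => hint j hj k hk)
  have hpos : ∀ t ∈ Set.Ioi (0 : ℝ), 0 < F t := by
    intro t ht
    have ht0 : (0 : ℝ) < t := ht
    have hI : ∀ k ∈ range n, Real.rpowIntegrand₀₁ s t (d k) = t ^ (s - 1) * (d k / (t + d k)) := by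
      intro k hk
      rw [Real.rpowIntegrand₀₁_eq_pow_div ⟨hs0, hs1⟩ ht0.le (hd k (mem_range.mp hk)).le]
      ring
    set v : ℕ → ℝ := fun j => w j / (t + d j) with hv
    have hvne : ∃ j < n, d j * v j ≠ 0 := by
      obtain ⟨j, hj, hwj⟩ := hw
      have := hd j hj
      exact ⟨j, hj, mul_ne_zero this.ne' (div_ne_zero hwj (by positivity))⟩
    have e1 := h1 (fun j => d j * v j) hvne
    have e2 := h2 v
    have key : F t = t ^ (s - 1) * ((∑ j ∈ range n, ∑ k ∈ range n,
        G j k * ((d j * v j) * (d k * v k)))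
        + t * ∑ j ∈ range n, ∑ k ∈ range n, G j k * d k * (v j * v k)) := by
      rw [hF, Finset.mul_sum, ← Finset.sum_add_distrib, Finset.mul_sum]
      refine Finset.sum_congr rfl (fun j hj => ?_)
      rw [Finset.mul_sum, ← Finset.sum_add_distrib, Finset.mul_sum]
      refine Finset.sum_congr rfl (fun k hk => ?_)
      rw [hI k hk]
      have hj' := hd j (mem_range.mp hj)
      have hk' := hd k (mem_range.mp hk)
      have a1 : t + d j ≠ 0 := by positivity
      have a2 : t + d k ≠ 0 := by positivity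
      simp only [hv]
      field_simp
      ring
    rw [key]
    have : 0 < t ^ (s - 1) := Real.rpow_pos_of_pos ht0 _
    exact mul_pos this (by nlinarith [mul_nonneg ht0.le e2])
  have hμ0 : μ (Set.Ioi 0) ≠ 0 := by
    intro h0
    have h11 := (hμ 1 (by norm_num : (0 : ℝ) ≤ 1)).2
    rw [setIntegral_measure_zero _ h0, Real.one_rpow] at h11
    exact one_ne_zero h11
  rw [← hval]
  rw [setIntegral_pos_iff_support_of_nonneg_ae]
  · have : Set.Ioi (0 : ℝ) ⊆ Function.support F ∩ Set.Ioi 0 := fun t ht =>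
      ⟨(hpos t ht).ne', ht⟩
    exact lt_of_lt_of_le (pos_iff_ne_zero.mpr hμ0) (measure_mono this)
  · exact (ae_restrict_iff' measurableSet_Ioi).mpr (Filter.Eventually.of_forall
      (fun t ht => (hpos t ht).le))
  · exact hFint

end Pool.Agent.ST11
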