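import Mathlib
import Pool.Agent.ST50.Defs
import Pool.Agent.ST11.Loewner

/-!
# ST11: the kernels `m`, `β` and the two exact identities at an extremal point
-/

open Polynomial Finset

namespace Pool.Agent.ST11

open Pool.Agent.ST50

variable {ι : Type*} [DecidableEq ι]

/-- `cl s y l k = [x^k] (p - p / (1 + y_l x)) = y_l [x^(k-1)] (p / (1 + y_l x))` -/
noncomputable def cl (s : Finset ι) (y : ι → ℝ) (l : ι) (k : ℕ) : ℝ :=
  cf s y k - cf (s.erase l) y k

/-- `m(j,k) = ∑_l y_l [x^j] p_l [x^k] p_l` -/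
noncomputable def mm (s : Finset ι) (y : ι → ℝ) (j k : ℕ) : ℝ :=
  ∑ l ∈ s, y l * (cf (s.erase l) y j * cf (s.erase l) y k)

/-- `β(j,k) = ∑_{i ≤ min(j,k)} (j+k+1-2i) (a_i a_{j+k+1-i})^2` -/
noncomputable def bb (a : ℕ → ℝ) (j k : ℕ) : ℝ :=
  ∑ i ∈ range (min j k + 1), ((j : ℝ) + k + 1 - 2 * i) * (a i * a (j + k + 1 - i)) ^ 2

/-- `β(j, k - 1)`, with value `0` for `k = 0` -/
noncomputable def bp (a : ℕ → ℝ) (j k : ℕ) : ℝ :=
  ∑ i ∈ range (min (j + 1) k), ((j : ℝ) + k - 2 * i) * (a i * a (j + k - i)) ^ 2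

lemma bp_succ (a : ℕ → ℝ) (j k : ℕ) : bp a j (k + 1) = bb a j k := by
  unfold bp bb
  rw [← Nat.add_min_add_right]
  refine Finset.sum_congr rfl (fun i _ => ?_)
  rw [show j + (k + 1) = j + k + 1 by ring]
  push_cast
  ring

lemma bp_zero (a : ℕ → ℝ) (j : ℕ) : bp a j 0 = 0 := by
  unfold bp
  simp

lemma bb_comm (a : ℕ → ℝ) (j k : ℕ) : bb a j k = bb a k j := by
  unfold bb
  rw [min_comm, show k + j + 1 = j + k + 1 by ring]
  refine Finset.sum_congr rfl (fun i _ => ?_)
  ring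

lemma bp_antisymm (a : ℕ → ℝ) (j k : ℕ) :
    bp a j k - bp a k j = ((k : ℝ) - j) * (a j * a k) ^ 2 := by
  rcases lt_trichotomy j k with h | h | h
  · unfold bp
    rw [min_eq_left (by omega : j + 1 ≤ k), min_eq_right (by omega : j ≤ k + 1),
      Finset.sum_range_succ, show j + k - j = k by omega, show k + j = j + k by ring]
    have : ∀ i ∈ range j, ((j : ℝ) + k - 2 * i) * (a i * a (j + k - i)) ^ 2
        = ((k : ℝ) + j - 2 * i) * (a i * a (j + k - i)) ^ 2 := fun i _ => by ring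
    rw [Finset.sum_congr rfl this]
    ring
  · subst h
    ring
  · unfold bp
    rw [min_eq_right (by omega : k ≤ j + 1), min_eq_left (by omega : k + 1 ≤ j),
      Finset.sum_range_succ, show k + j - k = j by omega, show k + j = j + k by ring]
    have : ∀ i ∈ range k, ((j : ℝ) + k - 2 * i) * (a i * a (j + k - i)) ^ 2
        = ((k : ℝ) + j - 2 * i) * (a i * a (j + k - i)) ^ 2 := fun i _ => by ring
    rw [Finset.sum_congr rfl this]
    ring

lemma bb_eq_zero {a : ℕ → ℝ} {n : ℕ} (ha : ∀ k, n < k → a k = 0) (k : ℕ) (hk : k ≤ n) :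
    bb a n k = 0 := by
  unfold bb
  refine Finset.sum_eq_zero (fun i hi => ?_)
  have : i ≤ k := by
    have := mem_range.mp hi
    omega
  rw [ha (n + k + 1 - i) (by omega)]
  ring

lemma cl_zero (s : Finset ι) (y : ι → ℝ) (l : ι) : cl s y l 0 = 0 := by
  unfold cl
  rw [cf_zero, cf_zero, sub_self]

lemma cl_succ {s : Finset ι} {l : ι} (hl : l ∈ s) (y : ι → ℝ) (k : ℕ) :
    cl s y l (k + 1) = y l * cf (s.erase l) y k := by
  unfold cl
  rw [cf_succ hl]
  ring

lemma sum_cl (s : Finset ι) (y : ι → ℝ) (k : ℕ) : ∑ l ∈ s, cl s y l k = k * cf s y k := by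
  induction s using Finset.induction_on generalizing k with
  | empty =>
    rcases k with _ | k
    · simp
    · rw [cf_eq_zero y (by simp)]
      simp
  | insert m s hm ih =>
    rcases k with _ | k
    · simp [cl_zero]
    rw [Finset.sum_insert hm, cl_succ (Finset.mem_insert_self m s), Finset.erase_insert hm]
    have h : ∀ l ∈ s, cl (insert m s) y l (k + 1) = cl s y l (k + 1) + y m * cl s y l k := by
      intro l hl
      have hne : l ≠ m := fun h => hm (h ▸ hl)
      have e : (insert m s).erase l = insert m (s.erase l) := by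
        rw [Finset.erase_insert_of_ne hne.symm]
      have hm' : m ∉ s.erase l := fun h => hm (Finset.mem_of_mem_erase h)
      unfold cl
      rw [e, cf_succ (Finset.mem_insert_self m s), cf_succ (Finset.mem_insert_self m (s.erase l)),
        Finset.erase_insert hm, Finset.erase_insert hm']
      ring
    rw [Finset.sum_congr rfl h, Finset.sum_add_distrib, ← Finset.mul_sum, ih, ih,
      cf_succ (Finset.mem_insert_self m s), Finset.erase_insert hm]
    push_cast
    ring

/-- `S(j,k) = ∑_l c_l(j) c_l(k)` -/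
noncomputable def ss (s : Finset ι) (y : ι → ℝ) (j k : ℕ) : ℝ :=
  ∑ l ∈ s, cl s y l j * cl s y l k

/-- `ê(j,k) = ∑_l b_l(j) c_l(k) = k a_j a_k - S(j,k)` -/
lemma ee_eq (s : Finset ι) (y : ι → ℝ) (j k : ℕ) :
    ∑ l ∈ s, cf (s.erase l) y j * cl s y l k = k * (cf s y j * cf s y k) - ss s y j k := by
  have h : ∀ l ∈ s, cf (s.erase l) y j * cl s y l k
      = cf s y j * cl s y l k - cl s y l j * cl s y l k := by
    intro l _
    unfold cl
    ring
  rw [Finset.sum_congr rfl h, Finset.sum_sub_distrib, ← Finset.mul_sum, sum_cl]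
  unfold ss
  ring

lemma mm_eq (s : Finset ι) (y : ι → ℝ) (j k : ℕ) :
    mm s y j k = (k + 1 : ℕ) * (cf s y j * cf s y (k + 1)) - ss s y j (k + 1) := by
  rw [← ee_eq]
  unfold mm
  refine Finset.sum_congr rfl (fun l hl => ?_)
  rw [cl_succ hl]
  ring

lemma mm_comm (s : Finset ι) (y : ι → ℝ) (j k : ℕ) : mm s y j k = mm s y k j := by
  unfold mm
  refine Finset.sum_congr rfl (fun l _ => by ring)

lemma mm_card (s : Finset ι) (y : ι → ℝ) (k : ℕ) : mm s y s.card k = 0 := by
  unfold mm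
  refine Finset.sum_eq_zero (fun l hl => ?_)
  rw [cf_eq_zero (s := s.erase l) y (k := s.card)
    (by rw [Finset.card_erase_of_mem hl]; have := Finset.card_pos.mpr ⟨l, hl⟩; omega)]
  ring

/-! ### the two identities -/

section EP

variable {s : Finset ι} {y : ι → ℝ} {x : ℕ → ℝ}

/-- first identity: `∑ m(j,k)^2 x_j x_{k+1} = ∑_{l,l'} (∑_j c_l(j) c_{l'}(j) x_j)^2` -/
lemma identity_one
    (h0 : ∑ k ∈ range (s.card + 1), cf s y k ^ 2 * x k = 0)
    (h1 : ∀ l ∈ s, ∑ k ∈ range (s.card + 1), cf s y k * cl s y l k * x k = 0) :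
    ∑ j ∈ range s.card, ∑ k ∈ range s.card, mm s y j k ^ 2 * (x j * x (k + 1))
      = ∑ l ∈ s, ∑ l' ∈ s, (∑ k ∈ range (s.card + 1), cl s y l k * cl s y l' k * x k) ^ 2 := by
  set n := s.card with hn
  -- extend the sum
  have e1 : ∑ j ∈ range n, ∑ k ∈ range n, mm s y j k ^ 2 * (x j * x (k + 1))
      = ∑ j ∈ range (n + 1), ∑ k ∈ range (n + 1),
        (k * (cf s y j * cf s y k) - ss s y j k) ^ 2 * (x j * x k) := by
    rw [Finset.sum_range_succ]
    have hlast : ∑ k ∈ range (n + 1), (k * (cf s y n * cf s y k) - ss s y n k) ^ 2 * (x n * x k)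
        = 0 := by
      refine Finset.sum_eq_zero (fun k _ => ?_)
      rcases k with _ | k
      · have : ss s y n 0 = 0 := by
          unfold ss
          exact Finset.sum_eq_zero (fun l _ => by rw [cl_zero]; ring)
        rw [this]
        push_cast
        ring
      · rw [← mm_eq, hn, mm_card]
        ring
    rw [hlast, add_zero]
    refine Finset.sum_congr rfl (fun j _ => ?_)
    rw [Finset.sum_range_succ']
    have h00 : (((0 : ℕ) : ℝ) * (cf s y j * cf s y 0) - ss s y j 0) ^ 2 * (x j * x 0) = 0 := by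
      have : ss s y j 0 = 0 := by
        unfold ss
        exact Finset.sum_eq_zero (fun l _ => by rw [cl_zero]; ring)
      rw [this]
      push_cast
      ring
    rw [h00, add_zero]
    refine Finset.sum_congr rfl (fun k _ => ?_)
    rw [mm_eq]
  rw [e1]
  -- expand the square
  have e2 : ∀ j k : ℕ, (k * (cf s y j * cf s y k) - ss s y j k) ^ 2 * (x j * x k)
      = (cf s y j ^ 2 * x j) * ((k : ℝ) ^ 2 * cf s y k ^ 2 * x k)
        - 2 * ∑ l ∈ s, (cf s y j * cl s y l j * x j) * ((k : ℝ) * cf s y k * cl s y l k * x k)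
        + ∑ l ∈ s, ∑ l' ∈ s, (cl s y l j * cl s y l' j * x j) * (cl s y l k * cl s y l' k * x k) := by
    intro j k
    have a1 : ss s y j k ^ 2 * (x j * x k) = ∑ l ∈ s, ∑ l' ∈ s,
        (cl s y l j * cl s y l' j * x j) * (cl s y l k * cl s y l' k * x k) := by
      unfold ss
      rw [sq, Finset.sum_mul_sum, Finset.sum_mul]
      refine Finset.sum_congr rfl (fun l _ => ?_)
      rw [Finset.sum_mul]
      refine Finset.sum_congr rfl (fun l' _ => ?_)
      ring
    have a2 : (k : ℝ) * (cf s y j * cf s y k) * ss s y j k * (x j * x k) = ∑ l ∈ s,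
        (cf s y j * cl s y l j * x j) * ((k : ℝ) * cf s y k * cl s y l k * x k) := by
      unfold ss
      rw [Finset.mul_sum, Finset.sum_mul]
      refine Finset.sum_congr rfl (fun l _ => ?_)
      ring
    rw [← a1, ← a2]
    ring
  simp_rw [e2]
  simp_rw [Finset.sum_add_distrib, Finset.sum_sub_distrib]
  have b1 : ∑ j ∈ range (n + 1), ∑ k ∈ range (n + 1),
      (cf s y j ^ 2 * x j) * ((k : ℝ) ^ 2 * cf s y k ^ 2 * x k) = 0 := by
    rw [← Finset.sum_mul_sum, h0, zero_mul]
  have b2 : ∑ j ∈ range (n + 1), ∑ k ∈ range (n + 1), 2 * ∑ l ∈ s,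
      (cf s y j * cl s y l j * x j) * ((k : ℝ) * cf s y k * cl s y l k * x k) = 0 := by
    simp_rw [← Finset.mul_sum]
    rw [Finset.sum_congr rfl (fun j _ => Finset.sum_comm), Finset.sum_comm]
    rw [Finset.sum_eq_zero, mul_zero]
    intro l hl
    rw [← Finset.sum_mul_sum, h1 l hl, zero_mul]
  have b3 : ∑ j ∈ range (n + 1), ∑ k ∈ range (n + 1), ∑ l ∈ s, ∑ l' ∈ s,
      (cl s y l j * cl s y l' j * x j) * (cl s y l k * cl s y l' k * x k)
      = ∑ l ∈ s, ∑ l' ∈ s, (∑ k ∈ range (n + 1), cl s y l k * cl s y l' k * x k) ^ 2 := by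
    rw [Finset.sum_congr rfl (fun j _ => Finset.sum_comm), Finset.sum_comm]
    refine Finset.sum_congr rfl (fun l _ => ?_)
    rw [Finset.sum_congr rfl (fun j _ => Finset.sum_comm), Finset.sum_comm]
    refine Finset.sum_congr rfl (fun l' _ => ?_)
    rw [← Finset.sum_mul_sum, sq]
  rw [b1, b2, b3]
  ring

/-- second identity: `∑ (k + 1 - j) β(j,k) x_j x_{k+1} = 0` -/
lemma identity_two {n : ℕ} {a : ℕ → ℝ} (ha : ∀ k, n < k → a k = 0)
    (h0 : ∑ k ∈ range (n + 1), a k ^ 2 * x k = 0)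
    (h1 : ∑ k ∈ range (n + 1), (k : ℝ) * a k ^ 2 * x k = 0) :
    ∑ j ∈ range n, ∑ k ∈ range n, ((k : ℝ) + 1 - j) * bb a j k * (x j * x (k + 1)) = 0 := by
  have e1 : ∑ j ∈ range n, ∑ k ∈ range n, ((k : ℝ) + 1 - j) * bb a j k * (x j * x (k + 1))
      = ∑ j ∈ range (n + 1), ∑ k ∈ range (n + 1), ((k : ℝ) - j) * bp a j k * (x j * x k) := by
    rw [Finset.sum_range_succ]
    have hlast : ∑ k ∈ range (n + 1), ((k : ℝ) - n) * bp a n k * (x n * x k) = 0 := by
      refine Finset.sum_eq_zero (fun k hk => ?_)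
      rcases k with _ | k
      · rw [bp_zero]; ring
      · rw [bp_succ, bb_eq_zero ha k (by have := mem_range.mp hk; omega)]
        ring
    rw [hlast, add_zero]
    refine Finset.sum_congr rfl (fun j _ => ?_)
    rw [Finset.sum_range_succ', bp_zero]
    simp only [mul_zero, zero_mul, add_zero]
    refine Finset.sum_congr rfl (fun k _ => ?_)
    rw [bp_succ]
    push_cast
    ring
  rw [e1]
  have e2 : ∑ j ∈ range (n + 1), ∑ k ∈ range (n + 1), ((k : ℝ) - j) * bp a j k * (x j * x k)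
      = ∑ j ∈ range (n + 1), ∑ k ∈ range (n + 1), ((j : ℝ) - k) * bp a k j * (x j * x k) := by
    rw [Finset.sum_comm]
    refine Finset.sum_congr rfl (fun j _ => Finset.sum_congr rfl (fun k _ => ?_))
    ring
  have e3 : 2 * ∑ j ∈ range (n + 1), ∑ k ∈ range (n + 1), ((k : ℝ) - j) * bp a j k * (x j * x k)
      = ∑ j ∈ range (n + 1), ∑ k ∈ range (n + 1),
        ((a j ^ 2 * x j) * ((k : ℝ) ^ 2 * a k ^ 2 * x k)
          - 2 * (((j : ℝ) * a j ^ 2 * x j) * ((k : ℝ) * a k ^ 2 * x k))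
          + ((j : ℝ) ^ 2 * a j ^ 2 * x j) * (a k ^ 2 * x k)) := by
    rw [two_mul]
    nth_rewrite 2 [e2]
    rw [← Finset.sum_add_distrib]
    refine Finset.sum_congr rfl (fun j _ => ?_)
    rw [← Finset.sum_add_distrib]
    refine Finset.sum_congr rfl (fun k _ => ?_)
    have := bp_antisymm a j k
    linear_combination ((k : ℝ) - j) * (x j * x k) * this
  have e4 : ∑ j ∈ range (n + 1), ∑ k ∈ range (n + 1),
        ((a j ^ 2 * x j) * ((k : ℝ) ^ 2 * a k ^ 2 * x k)
          - 2 * (((j : ℝ) * a j ^ 2 * x j) * ((k : ℝ) * a k ^ 2 * x k))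
          + ((j : ℝ) ^ 2 * a j ^ 2 * x j) * (a k ^ 2 * x k)) = 0 := by
    simp_rw [Finset.sum_add_distrib, Finset.sum_sub_distrib, ← Finset.mul_sum]
    rw [← Finset.sum_mul, h0, ← Finset.sum_mul]
    simp [h1]
  linarith

end EP

end Pool.Agent.ST11
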