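import Mathlib
import Pool.Agent.ST11.Kernels

/-!
# ST11: the `STAR` inequality excludes extremal points for `2 ≤ r < 3`
-/

open Polynomial Finset

namespace Pool.Agent.ST11

open Pool.Agent.ST50

/-- the non-symmetric kernel `G = c m^2 + (1 + k - j) β` -/
noncomputable def gk (c : ℝ) (s : Finset ℕ) (y : ℕ → ℝ) (j k : ℕ) : ℝ :=
  c * mm s y j k ^ 2 + ((k : ℝ) + 1 - j) * bb (cf s y) j k

/-- `β + c m^2 > 0` as a quadratic form on `0, …, n-1` -/
def BetaPos (c : ℝ) (s : Finset ℕ) (y : ℕ → ℝ) : Prop :=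
  ∀ w : ℕ → ℝ, (∃ j < s.card, w j ≠ 0) →
    0 < ∑ j ∈ range s.card, ∑ k ∈ range s.card,
      (c * mm s y j k ^ 2 + bb (cf s y) j k) * (w j * w k)

/-- `STAR_c ≥ 0`: the quadratic form of `G diag(τ)`, `τ_k = a_{k+1}/a_k`; in symmetric form
`(τ_j + τ_k)(c m^2 + β) - (k - j)(τ_j - τ_k) β ≥ 0`. -/
def StarNonneg (c : ℝ) (s : Finset ℕ) (y : ℕ → ℝ) : Prop :=
  ∀ w : ℕ → ℝ, 0 ≤ ∑ j ∈ range s.card, ∑ k ∈ range s.card,
    gk c s y j k * (cf s y (k + 1) / cf s y k) * (w j * w k)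

lemma antisymm_sum_zero {n : ℕ} {f : ℕ → ℕ → ℝ} (hf : ∀ j k, f j k = f k j) (w : ℕ → ℝ) :
    ∑ j ∈ range n, ∑ k ∈ range n, ((k : ℝ) - j) * f j k * (w j * w k) = 0 := by
  have h : ∑ j ∈ range n, ∑ k ∈ range n, ((k : ℝ) - j) * f j k * (w j * w k)
      = - ∑ j ∈ range n, ∑ k ∈ range n, ((k : ℝ) - j) * f j k * (w j * w k) := by
    conv_lhs => rw [Finset.sum_comm]
    rw [← Finset.sum_neg_distrib]
    refine Finset.sum_congr rfl (fun j _ => ?_)
    rw [← Finset.sum_neg_distrib]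
    refine Finset.sum_congr rfl (fun k _ => ?_)
    rw [hf k j]
    ring
  linarith

lemma gk_pos {c : ℝ} {s : Finset ℕ} {y : ℕ → ℝ} (h : BetaPos c s y) (w : ℕ → ℝ)
    (hw : ∃ j < s.card, w j ≠ 0) :
    0 < ∑ j ∈ range s.card, ∑ k ∈ range s.card, gk c s y j k * (w j * w k) := by
  have h1 := h w hw
  have h2 := antisymm_sum_zero (n := s.card) (f := bb (cf s y)) (bb_comm _) w
  have h3 : ∑ j ∈ range s.card, ∑ k ∈ range s.card, gk c s y j k * (w j * w k)
      = ∑ j ∈ range s.card, ∑ k ∈ range s.card,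
          (c * mm s y j k ^ 2 + bb (cf s y) j k) * (w j * w k)
        + ∑ j ∈ range s.card, ∑ k ∈ range s.card, ((k : ℝ) - j) * bb (cf s y) j k * (w j * w k) := by
    rw [← Finset.sum_add_distrib]
    refine Finset.sum_congr rfl (fun j _ => ?_)
    rw [← Finset.sum_add_distrib]
    refine Finset.sum_congr rfl (fun k _ => ?_)
    unfold gk
    ring
  rw [h3, h2, add_zero]
  exact h1

/-- the exact identities at an extremal point, combined -/
lemma ep_gk_nonpos {s : Finset ℕ} {y : ℕ → ℝ} (hy : ∀ l ∈ s, 0 < y l) {r c : ℝ} (hc : 0 ≤ c)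
    (h0 : ∑ k ∈ range (s.card + 1), (-1 : ℝ) ^ k * cf s y k ^ r = 0)
    (h1 : ∀ l ∈ s, ∑ k ∈ range s.card,
      (-1 : ℝ) ^ k * (cf s y (k + 1) ^ (r - 1) * cf (s.erase l) y k) = 0) :
    ∑ j ∈ range s.card, ∑ k ∈ range s.card,
      gk c s y j k * (cf s y (k + 1) / cf s y k) ^ (r - 2) *
        (((-1 : ℝ) ^ j * cf s y j ^ (r - 2)) * ((-1 : ℝ) ^ k * cf s y k ^ (r - 2))) ≤ 0 := by
  have hpos : ∀ k ≤ s.card, 0 < cf s y k := fun k hk => cf_pos hy hk
  set x : ℕ → ℝ := fun k => (-1 : ℝ) ^ k * cf s y k ^ (r - 2) with hx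
  -- EP conditions in terms of x
  have hA : ∑ k ∈ range (s.card + 1), cf s y k ^ 2 * x k = 0 := by
    rw [← h0]
    refine Finset.sum_congr rfl (fun k hk => ?_)
    have hk' := hpos k (by have := mem_range.mp hk; omega)
    simp only [hx]
    rw [show cf s y k ^ r = cf s y k ^ (r - 2) * cf s y k ^ 2 by
      rw [← Real.rpow_natCast (cf s y k) 2, ← Real.rpow_add hk']
      congr 1
      push_cast
      ring]
    ring
  have hB : ∀ l ∈ s, ∑ k ∈ range (s.card + 1), cf s y k * cl s y l k * x k = 0 := by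
    intro l hl
    rw [Finset.sum_range_succ', cl_zero]
    have e : ∑ k ∈ range s.card, cf s y (k + 1) * cl s y l (k + 1) * x (k + 1)
        = -(y l) * ∑ k ∈ range s.card,
          (-1 : ℝ) ^ k * (cf s y (k + 1) ^ (r - 1) * cf (s.erase l) y k) := by
      rw [Finset.mul_sum]
      refine Finset.sum_congr rfl (fun k hk => ?_)
      have hk' := hpos (k + 1) (by have := mem_range.mp hk; omega)
      simp only [hx]
      rw [cl_succ hl, show cf s y (k + 1) ^ (r - 1)
          = cf s y (k + 1) ^ (r - 2) * cf s y (k + 1) by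
        conv_rhs => rw [← Real.rpow_one (cf s y (k + 1)), ← Real.rpow_mul hk'.le, one_mul,
          ← Real.rpow_add hk']
        congr 1
        ring, pow_succ]
      ring
    rw [e, h1 l hl]
    ring
  have hC : ∑ k ∈ range (s.card + 1), (k : ℝ) * cf s y k ^ 2 * x k = 0 := by
    have e : ∀ k ∈ range (s.card + 1), (k : ℝ) * cf s y k ^ 2 * x k
        = ∑ l ∈ s, cf s y k * cl s y l k * x k := by
      intro k _
      rw [← Finset.sum_mul, ← Finset.mul_sum, sum_cl]
      ring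
    rw [Finset.sum_congr rfl e, Finset.sum_comm]
    exact Finset.sum_eq_zero hB
  have I1 := identity_one (s := s) (y := y) (x := x) hA hB
  have I2 := identity_two (x := x) (n := s.card) (a := cf s y)
    (fun k hk => cf_eq_zero y hk) hA hC
  have hx' : ∀ k ∈ range s.card, x (k + 1)
      = -((cf s y (k + 1) / cf s y k) ^ (r - 2) * x k) := by
    intro k hk
    have hk1 := hpos (k + 1) (by have := mem_range.mp hk; omega)
    have hk0 := hpos k (by have := mem_range.mp hk; omega)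
    simp only [hx]
    rw [Real.div_rpow hk1.le hk0.le, pow_succ]
    have : cf s y k ^ (r - 2) ≠ 0 := (Real.rpow_pos_of_pos hk0 _).ne'
    field_simp
  have e : ∑ j ∈ range s.card, ∑ k ∈ range s.card,
      gk c s y j k * (cf s y (k + 1) / cf s y k) ^ (r - 2) * (x j * x k)
      = -(c * ∑ j ∈ range s.card, ∑ k ∈ range s.card, mm s y j k ^ 2 * (x j * x (k + 1)))
        - ∑ j ∈ range s.card, ∑ k ∈ range s.card,
          ((k : ℝ) + 1 - j) * bb (cf s y) j k * (x j * x (k + 1)) := by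
    rw [Finset.mul_sum, ← Finset.sum_neg_distrib, ← Finset.sum_sub_distrib]
    refine Finset.sum_congr rfl (fun j _ => ?_)
    rw [Finset.mul_sum, ← Finset.sum_neg_distrib, ← Finset.sum_sub_distrib]
    refine Finset.sum_congr rfl (fun k hk => ?_)
    rw [hx' k hk]
    unfold gk
    ring
  have e' : ∑ j ∈ range s.card, ∑ k ∈ range s.card,
      gk c s y j k * (cf s y (k + 1) / cf s y k) ^ (r - 2) *
        (((-1 : ℝ) ^ j * cf s y j ^ (r - 2)) * ((-1 : ℝ) ^ k * cf s y k ^ (r - 2)))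
      = ∑ j ∈ range s.card, ∑ k ∈ range s.card,
      gk c s y j k * (cf s y (k + 1) / cf s y k) ^ (r - 2) * (x j * x k) := rfl
  rw [e', e, I1, I2, sub_zero]
  have : 0 ≤ c * ∑ l ∈ s, ∑ l' ∈ s,
      (∑ k ∈ range (s.card + 1), cl s y l k * cl s y l' k * x k) ^ 2 :=
    mul_nonneg hc (Finset.sum_nonneg (fun l _ => Finset.sum_nonneg (fun l' _ => sq_nonneg _)))
  linarith

/-- **`STAR_c ≥ 0` implies that there is no extremal point.**  The constant `c ≥ 0` may depend on
the polynomial. -/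
theorem noEP_of_star {r : ℝ} (hr : 2 ≤ r) (hr3 : r < 3)
    (H : ∀ (s : Finset ℕ) (y : ℕ → ℝ), s.Nonempty → (∀ l ∈ s, 0 < y l) →
      ∃ c : ℝ, 0 ≤ c ∧ BetaPos c s y ∧ StarNonneg c s y) : NoEP r := by
  intro s y hy h0 h1
  rcases s.eq_empty_or_nonempty with rfl | hs
  · rw [Finset.card_empty, zero_add, Finset.sum_range_one, cf_zero] at h0
    norm_num at h0
  obtain ⟨c, hc, hB, hS⟩ := H s y hs hy
  have hcard : 0 < s.card := Finset.card_pos.mpr hs
  have hpos : ∀ k ≤ s.card, 0 < cf s y k := fun k hk => cf_pos hy hk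
  have hL := loewner (n := s.card) (G := gk c s y) (d := fun k => cf s y (k + 1) / cf s y k)
    (fun j hj => div_pos (hpos (j + 1) (by omega)) (hpos j (by omega)))
    (fun w hw => gk_pos hB w hw) hS (s := r - 2) (by linarith) (by linarith)
    (fun k => (-1 : ℝ) ^ k * cf s y k ^ (r - 2)) ⟨0, hcard, by simp [cf_zero]⟩
  have hU := ep_gk_nonpos hy hc h0 h1
  linarith

end Pool.Agent.ST11
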