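import Mathlib
import Pool.Agent.ST11.StarNoEP

/-!
# ST11: the kernel `β` is positive definite

`β(j,k) = ∑_{i ≤ min(j,k)} (N - 2i) (a_i a_{N-i})²`, `N = j + k + 1`, is the value at `t = 1` of a
kernel `β_t` with `β_0 = 0` and `dβ_t/dt = 2 t κ_t ∘ κ_t`, where `κ_t` is positive semidefinite for
`0 ≤ t ≤ 1` and `κ_0` is diagonal with positive diagonal.
-/

open Polynomial Finset

namespace Pool.Agent.ST11

open Pool.Agent.ST50

/-- Gram kernels -/
def IsGram (K : ℤ → ℤ → ℝ) : Prop :=
  ∃ (A : Type) (_ : Fintype A) (h : A → ℤ → ℝ), ∀ j k, K j k = ∑ α, h α j * h α k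

lemma IsGram.zero : IsGram (fun _ _ => 0) :=
  ⟨Empty, inferInstance, fun _ _ => 0, fun j k => by simp⟩

lemma IsGram.add {K K' : ℤ → ℤ → ℝ} (h : IsGram K) (h' : IsGram K') :
    IsGram (fun j k => K j k + K' j k) := by
  obtain ⟨A, iA, f, hf⟩ := h
  obtain ⟨A', iA', f', hf'⟩ := h'
  refine ⟨A ⊕ A', inferInstance, Sum.elim f f', fun j k => ?_⟩
  rw [Fintype.sum_sum_type]
  simp [hf, hf']

lemma IsGram.smul {K : ℤ → ℤ → ℝ} (h : IsGram K) {c : ℝ} (hc : 0 ≤ c) :
    IsGram (fun j k => c * K j k) := by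
  obtain ⟨A, iA, f, hf⟩ := h
  refine ⟨A, iA, fun α j => Real.sqrt c * f α j, fun j k => ?_⟩
  beta_reduce
  rw [hf, Finset.mul_sum]
  refine Finset.sum_congr rfl (fun α _ => ?_)
  have := Real.mul_self_sqrt hc
  linear_combination -(f α j * f α k) * this

/-- multiplication of the generating function by `1 + t y (x + z) + y² x z` -/
def lop (t y : ℝ) (K : ℤ → ℤ → ℝ) (j k : ℤ) : ℝ :=
  K j k + t * y * (K (j - 1) k + K j (k - 1)) + y ^ 2 * K (j - 1) (k - 1)

lemma IsGram.lop {K : ℤ → ℤ → ℝ} (h : IsGram K) {t : ℝ} (y : ℝ) (ht : t ^ 2 ≤ 1) :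
    IsGram (lop t y K) := by
  have h1 : IsGram (fun j k => t ^ 2 * K j k + t * y * (K (j - 1) k + K j (k - 1))
      + y ^ 2 * K (j - 1) (k - 1)) := by
    obtain ⟨A, iA, f, hf⟩ := h
    refine ⟨A, iA, fun α j => t * f α j + y * f α (j - 1), fun j k => ?_⟩
    beta_reduce
    rw [hf, hf, hf, hf, Finset.mul_sum, ← Finset.sum_add_distrib, Finset.mul_sum, Finset.mul_sum,
      ← Finset.sum_add_distrib, ← Finset.sum_add_distrib]
    refine Finset.sum_congr rfl (fun α _ => ?_)
    ring
  have h2 := h.smul (c := 1 - t ^ 2) (by linarith)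
  have h3 := h1.add h2
  have : ST11.lop t y K = fun j k => (t ^ 2 * K j k + t * y * (K (j - 1) k + K j (k - 1))
      + y ^ 2 * K (j - 1) (k - 1)) + (1 - t ^ 2) * K j k := by
    funext j k
    unfold ST11.lop
    ring
  rw [this]
  exact h3

/-- Schur: the entrywise square of a Gram kernel has a nonnegative quadratic form -/
lemma IsGram.sq_nonneg {K : ℤ → ℤ → ℝ} (h : IsGram K) (n : ℕ) (w : ℕ → ℝ) :
    0 ≤ ∑ j ∈ range n, ∑ k ∈ range n, K j k ^ 2 * (w j * w k) := by
  obtain ⟨A, iA, f, hf⟩ := h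
  have e : ∑ j ∈ range n, ∑ k ∈ range n, K j k ^ 2 * (w j * w k)
      = ∑ α, ∑ β, (∑ j ∈ range n, f α j * f β j * w j) ^ 2 := by
    have e1 : ∀ j k : ℕ, K j k ^ 2 * (w j * w k)
        = ∑ α, ∑ β, (f α j * f β j * w j) * (f α k * f β k * w k) := by
      intro j k
      rw [hf, sq, Finset.sum_mul_sum, Finset.sum_mul]
      refine Finset.sum_congr rfl (fun α _ => ?_)
      rw [Finset.sum_mul]
      refine Finset.sum_congr rfl (fun β _ => ?_)
      ring
    simp_rw [e1]
    rw [Finset.sum_congr rfl (fun j _ => Finset.sum_comm), Finset.sum_comm]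
    refine Finset.sum_congr rfl (fun α _ => ?_)
    rw [Finset.sum_congr rfl (fun j _ => Finset.sum_comm), Finset.sum_comm]
    refine Finset.sum_congr rfl (fun β _ => ?_)
    rw [← Finset.sum_mul_sum, sq]
  rw [e]
  exact Finset.sum_nonneg (fun α _ => Finset.sum_nonneg (fun β _ => _root_.sq_nonneg _))

/-- the data of the flow -/
structure Flow (s : Finset ℕ) (y : ℕ → ℝ) (g κ : ℝ → ℤ → ℤ → ℝ) : Prop where
  one : ∀ j k : ℕ, g 1 j k = cf s y j * cf s y k
  neg : ∀ t j k, (j < 0 ∨ k < 0) → g t j k = 0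
  kneg : ∀ t j k, (j < 0 ∨ k < 0) → κ t j k = 0
  zero_off : ∀ j k, j ≠ k → g 0 j k = 0
  kzero_off : ∀ j k, j ≠ k → κ 0 j k = 0
  zero_nonneg : ∀ j, 0 ≤ g 0 j j
  zero_pos : ∀ j : ℕ, j ≤ s.card → 0 < g 0 j j
  kzero_nonneg : ∀ j, 0 ≤ κ 0 j j
  kzero_pos : ∀ j : ℕ, j < s.card → 0 < κ 0 j j
  rel : ∀ t j k, t * (κ t j k - κ t (j - 1) (k + 1)) = ((k : ℝ) + 1 - j) * g t j (k + 1)
  deriv : ∀ t j k, HasDerivAt (fun t => g t j k) (κ t (j - 1) k + κ t j (k - 1)) t
  cont : ∀ j k, Continuous (fun t => κ t j k)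
  gram : ∀ t, t ^ 2 ≤ 1 → IsGram (g t)
  kgram : ∀ t, t ^ 2 ≤ 1 → IsGram (κ t)

lemma exists_flow (s : Finset ℕ) (y : ℕ → ℝ) (hy : ∀ l ∈ s, 0 < y l) :
    ∃ g κ, Flow s y g κ := by
  induction s using Finset.induction_on with
  | empty =>
    refine ⟨fun _ j k => if j = 0 ∧ k = 0 then 1 else 0, fun _ _ _ => 0, ?_⟩
    refine
      { one := ?_, neg := ?_, kneg := fun _ _ _ _ => rfl, zero_off := ?_,
        kzero_off := fun _ _ _ => rfl, zero_nonneg := ?_, zero_pos := ?_,
        kzero_nonneg := fun _ => le_refl _, kzero_pos := ?_, rel := ?_, deriv := ?_,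
        cont := fun _ _ => continuous_const, gram := ?_, kgram := fun _ _ => IsGram.zero }
    · intro j k
      rcases j with _ | j
      · rcases k with _ | k
        · simp [cf_zero]
        · rw [cf_eq_zero y (k := k + 1) (by simp), if_neg (by push_cast; omega), mul_zero]
      · rw [cf_eq_zero y (k := j + 1) (by simp), if_neg (by push_cast; omega), zero_mul]
    · intro t j k h
      rw [if_neg (by omega)]
    · intro j k h
      rw [if_neg (by omega)]
    · intro j
      split_ifs <;> norm_num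
    · intro j hj
      simp only [Finset.card_empty, nonpos_iff_eq_zero] at hj
      simp [hj]
    · intro j hj
      simp at hj
    · intro t j k
      by_cases h : j = 0 ∧ k + 1 = 0
      · rw [if_pos h]
        have h1 : (j : ℝ) = 0 := by exact_mod_cast h.1
        have h2 : (k : ℝ) + 1 = 0 := by exact_mod_cast h.2
        rw [h1, h2]
        ring
      · rw [if_neg h]
        ring
    · intro t j k
      simpa using hasDerivAt_const t (if j = 0 ∧ k = 0 then (1 : ℝ) else 0)
    · intro t _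
      refine ⟨Unit, inferInstance, fun _ j => if j = 0 then 1 else 0, fun j k => ?_⟩
      simp only [Finset.univ_unique, Finset.sum_const, Finset.card_singleton, one_smul]
      by_cases h1 : j = 0 <;> by_cases h2 : k = 0 <;> simp [h1, h2]
  | insert m s hm ih =>
    obtain ⟨g, κ, F⟩ := ih (fun l hl => hy l (Finset.mem_insert_of_mem hl))
    have hym : 0 < y m := hy m (Finset.mem_insert_self m s)
    refine ⟨fun t => lop t (y m) (g t), fun t j k => y m * g t j k + lop t (y m) (κ t) j k, ?_⟩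
    have hcard : (insert m s).card = s.card + 1 := Finset.card_insert_of_notMem hm
    refine
      { one := ?_, neg := ?_, kneg := ?_, zero_off := ?_,
        kzero_off := ?_, zero_nonneg := ?_, zero_pos := ?_,
        kzero_nonneg := ?_, kzero_pos := ?_, rel := ?_, deriv := ?_,
        cont := ?_, gram := ?_, kgram := ?_ }
    · -- one
      have hA : ∀ j : ℕ, cf (insert m s) y j = cf s y j + y m * (if j = 0 then 0 else cf s y (j - 1)) := by
        intro j
        rcases j with _ | j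
        · simp [cf_zero]
        · rw [cf_succ (Finset.mem_insert_self m s), Finset.erase_insert hm]
          simp
      have hg : ∀ j k : ℕ, g 1 ((j : ℤ) - 1) k = (if j = 0 then 0 else cf s y (j - 1)) * cf s y k := by
        intro j k
        rcases j with _ | j
        · rw [F.neg]
          · simp
          · left; simp
        · rw [show (((j + 1 : ℕ) : ℤ) - 1) = (j : ℤ) by push_cast; ring, F.one]
          simp
      have hg' : ∀ j k : ℕ, g 1 j ((k : ℤ) - 1) = cf s y j * (if k = 0 then 0 else cf s y (k - 1)) := by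
        intro j k
        rcases k with _ | k
        · rw [F.neg]
          · simp
          · right; simp
        · rw [show (((k + 1 : ℕ) : ℤ) - 1) = (k : ℤ) by push_cast; ring, F.one]
          simp
      have hg'' : ∀ j k : ℕ, g 1 ((j : ℤ) - 1) ((k : ℤ) - 1)
          = (if j = 0 then 0 else cf s y (j - 1)) * (if k = 0 then 0 else cf s y (k - 1)) := by
        intro j k
        rcases j with _ | j
        · rw [F.neg]
          · simp
          · left; simp
        · rw [show (((j + 1 : ℕ) : ℤ) - 1) = (j : ℤ) by push_cast; ring, hg']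
          simp
      intro j k
      unfold lop
      rw [F.one, hg, hg', hg'', hA, hA]
      ring
    · -- neg
      intro t j k h
      unfold lop
      rw [F.neg t j k h, F.neg t (j - 1) k (by omega), F.neg t j (k - 1) (by omega),
        F.neg t (j - 1) (k - 1) (by omega)]
      ring
    · intro t j k h
      unfold lop
      rw [F.neg t j k h, F.kneg t j k h, F.kneg t (j - 1) k (by omega),
        F.kneg t j (k - 1) (by omega), F.kneg t (j - 1) (k - 1) (by omega)]
      ring
    · -- zero_off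
      intro j k h
      unfold lop
      rw [F.zero_off j k h, F.zero_off (j - 1) (k - 1) (by omega)]
      ring
    · intro j k h
      unfold lop
      rw [F.zero_off j k h, F.kzero_off j k h, F.kzero_off (j - 1) (k - 1) (by omega)]
      ring
    · intro j
      unfold lop
      have h1 := F.zero_nonneg j
      have h2 := F.zero_nonneg (j - 1)
      have : 0 ≤ y m ^ 2 * g 0 (j - 1) (j - 1) := mul_nonneg (by positivity) h2
      linarith
    · intro j hj
      rw [hcard] at hj
      unfold lop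
      have h1 := F.zero_nonneg j
      have h2 := F.zero_nonneg ((j : ℤ) - 1)
      have h3 : 0 ≤ y m ^ 2 * g 0 ((j : ℤ) - 1) ((j : ℤ) - 1) := mul_nonneg (by positivity) h2
      rcases Nat.lt_or_ge s.card j with h | h
      · obtain ⟨i, rfl⟩ := Nat.exists_eq_succ_of_ne_zero (show j ≠ 0 by omega)
        have h4 := F.zero_pos i (by omega)
        rw [show (((Nat.succ i : ℕ) : ℤ) - 1) = (i : ℤ) by push_cast; ring]
        have h5 : 0 < y m ^ 2 * g 0 i i := mul_pos (by positivity) h4
        linarith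
      · have := F.zero_pos j h
        linarith
    · intro j
      unfold lop
      have h1 := F.zero_nonneg j
      have h2 := F.kzero_nonneg j
      have h3 := F.kzero_nonneg (j - 1)
      have h4 : 0 ≤ y m ^ 2 * κ 0 (j - 1) (j - 1) := mul_nonneg (by positivity) h3
      have h5 : 0 ≤ y m * g 0 j j := mul_nonneg hym.le h1
      linarith
    · intro j hj
      rw [hcard] at hj
      unfold lop
      have h1 := F.zero_pos j (by omega)
      have h2 := F.kzero_nonneg (j : ℤ)
      have h3 := F.kzero_nonneg ((j : ℤ) - 1)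
      have h4 : 0 ≤ y m ^ 2 * κ 0 ((j : ℤ) - 1) ((j : ℤ) - 1) := mul_nonneg (by positivity) h3
      have h5 : 0 < y m * g 0 j j := mul_pos hym h1
      linarith
    · -- rel
      intro t j k
      unfold lop
      have e1 := F.rel t j k
      have e2 := F.rel t (j - 1) k
      have e3 := F.rel t j (k - 1)
      have e4 := F.rel t (j - 1) (k - 1)
      rw [show k - 1 + 1 = k by ring] at e3 e4
      rw [show k + 1 - 1 = k by ring]
      push_cast at e1 e2 e3 e4 ⊢
      linear_combination e1 + t * y m * e2 + t * y m * e3 + y m ^ 2 * e4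
    · -- deriv
      intro t j k
      have d1 := F.deriv t j k
      have d2 := F.deriv t (j - 1) k
      have d3 := F.deriv t j (k - 1)
      have d4 := F.deriv t (j - 1) (k - 1)
      have hid := hasDerivAt_id t
      have := (d1.add ((hid.mul_const (y m)).mul (d2.add d3))).add (d4.const_mul (y m ^ 2))
      refine this.congr_deriv ?_
      simp only [id, Pi.add_apply]
      unfold lop
      ring
    · -- cont
      intro j k
      have hg : Continuous (fun t => g t j k) := by
        rw [continuous_iff_continuousAt]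
        exact fun t => (F.deriv t j k).continuousAt
      have c1 := F.cont j k
      have c2 := F.cont (j - 1) k
      have c3 := F.cont j (k - 1)
      have c4 := F.cont (j - 1) (k - 1)
      unfold lop
      fun_prop
    · intro t ht
      exact (F.gram t ht).lop (y m) ht
    · intro t ht
      exact ((F.gram t ht).smul hym.le).add ((F.kgram t ht).lop (y m) ht)

/-- the kernel `β_t` -/
noncomputable def bt (g : ℝ → ℤ → ℤ → ℝ) (t : ℝ) (j k : ℕ) : ℝ :=
  ∑ i ∈ range (j + 1), ((j : ℝ) + k + 1 - 2 * i) * (g t i ((j : ℤ) + k + 1 - i)) ^ 2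

lemma bt_deriv {s : Finset ℕ} {y : ℕ → ℝ} {g κ : ℝ → ℤ → ℤ → ℝ} (F : Flow s y g κ) (t : ℝ)
    (j k : ℕ) : HasDerivAt (fun t => bt g t j k) (2 * t * κ t j k ^ 2) t := by
  have h : HasDerivAt (fun t => bt g t j k)
      (∑ i ∈ range (j + 1), ((j : ℝ) + k + 1 - 2 * i) *
        (2 * g t i ((j : ℤ) + k + 1 - i) *
          (κ t (i - 1) ((j : ℤ) + k + 1 - i) + κ t i ((j : ℤ) + k + 1 - i - 1)))) t := by
    unfold bt
    refine HasDerivAt.fun_sum (fun i _ => ?_)
    have := ((F.deriv t i ((j : ℤ) + k + 1 - i)).pow 2).const_mul ((j : ℝ) + k + 1 - 2 * i)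
    refine this.congr_deriv ?_
    simp
  refine h.congr_deriv ?_
  have e : ∀ i ∈ range (j + 1), ((j : ℝ) + k + 1 - 2 * i) *
        (2 * g t i ((j : ℤ) + k + 1 - i) *
          (κ t (i - 1) ((j : ℤ) + k + 1 - i) + κ t i ((j : ℤ) + k + 1 - i - 1)))
      = 2 * t * κ t (((i + 1 : ℕ) : ℤ) - 1) ((j : ℤ) + k + 1 - (i + 1 : ℕ)) ^ 2
        - 2 * t * κ t ((i : ℤ) - 1) ((j : ℤ) + k + 1 - i) ^ 2 := by
    intro i _
    have r := F.rel t i ((j : ℤ) + k - i)
    rw [show (j : ℤ) + k + 1 - i - 1 = (j : ℤ) + k - i by ring,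
      show (((i + 1 : ℕ) : ℤ) - 1) = (i : ℤ) by push_cast; ring,
      show (j : ℤ) + k + 1 - ((i + 1 : ℕ) : ℤ) = (j : ℤ) + k - i by push_cast; ring]
    rw [show (j : ℤ) + k - i + 1 = (j : ℤ) + k + 1 - i by ring] at r
    push_cast at r ⊢
    linear_combination (-2 * (κ t ((i : ℤ) - 1) ((j : ℤ) + k + 1 - i) + κ t i ((j : ℤ) + k - i))) * r
  rw [Finset.sum_congr rfl e, Finset.sum_range_sub
    (fun i : ℕ => 2 * t * κ t ((i : ℤ) - 1) ((j : ℤ) + k + 1 - i) ^ 2)]
  rw [F.kneg t (((0 : ℕ) : ℤ) - 1) _ (by left; simp),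
    show (((j + 1 : ℕ) : ℤ) - 1) = (j : ℤ) by push_cast; ring,
    show (j : ℤ) + k + 1 - ((j + 1 : ℕ) : ℤ) = (k : ℤ) by push_cast; ring]
  ring

lemma bt_zero {s : Finset ℕ} {y : ℕ → ℝ} {g κ : ℝ → ℤ → ℤ → ℝ} (F : Flow s y g κ)
    (j k : ℕ) : bt g 0 j k = 0 := by
  unfold bt
  refine Finset.sum_eq_zero (fun i _ => ?_)
  by_cases h : (i : ℤ) = (j : ℤ) + k + 1 - i
  · have : (j : ℝ) + k + 1 - 2 * i = 0 := by
      have h' : (j : ℤ) + k + 1 - 2 * i = 0 := by omega
      exact_mod_cast h'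
    rw [this, zero_mul]
  · rw [F.zero_off _ _ h]
    ring

lemma bt_one {s : Finset ℕ} {y : ℕ → ℝ} {g κ : ℝ → ℤ → ℤ → ℝ} (F : Flow s y g κ)
    {j k : ℕ} (hjk : j ≤ k) : bt g 1 j k = bb (cf s y) j k := by
  unfold bt bb
  rw [min_eq_left hjk]
  refine Finset.sum_congr rfl (fun i hi => ?_)
  have hi' := mem_range.mp hi
  rw [show (j : ℤ) + k + 1 - i = ((j + k + 1 - i : ℕ) : ℤ) by omega, F.one]

lemma bt_one' {s : Finset ℕ} {y : ℕ → ℝ} {g κ : ℝ → ℤ → ℤ → ℝ} (F : Flow s y g κ)
    (j k : ℕ) : bt g 1 j k = bb (cf s y) j k := by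
  rcases le_total j k with h | h
  · exact bt_one F h
  · -- j > k: the additional terms cancel in pairs; use symmetry of the derivative
    rw [bb_comm, ← bt_one F h]
    -- both sides have the same derivative and the same value at 0
    have hd : ∀ t ∈ Set.Ico (0 : ℝ) 1, HasDerivWithinAt (fun t => bt g t j k - bt g t k j)
        0 (Set.Ici t) t := by
      intro t ht
      have hg := F.kgram t (by nlinarith [ht.1, ht.2])
      have hs : κ t j k = κ t k j := by
        obtain ⟨A, iA, f, hf⟩ := hg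
        rw [hf, hf]
        exact Finset.sum_congr rfl (fun α _ => mul_comm _ _)
      have := (bt_deriv F t j k).sub (bt_deriv F t k j)
      rw [hs, sub_self] at this
      exact this.hasDerivWithinAt
    have hcont : ContinuousOn (fun t => bt g t j k - bt g t k j) (Set.Icc 0 1) := by
      intro t _
      exact ((bt_deriv F t j k).sub (bt_deriv F t k j)).continuousAt.continuousWithinAt
    have := constant_of_has_deriv_right_zero hcont hd 1 ⟨zero_le_one, le_refl _⟩
    rw [bt_zero F, bt_zero F] at this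
    linarith

theorem bb_pos (s : Finset ℕ) (y : ℕ → ℝ) (hy : ∀ l ∈ s, 0 < y l) (w : ℕ → ℝ)
    (hw : ∃ j < s.card, w j ≠ 0) :
    0 < ∑ j ∈ range s.card, ∑ k ∈ range s.card, bb (cf s y) j k * (w j * w k) := by
  obtain ⟨g, κ, F⟩ := exists_flow s y hy
  set n := s.card
  set Φ : ℝ → ℝ := fun t => ∑ j ∈ range n, ∑ k ∈ range n, bt g t j k * (w j * w k) with hΦ
  set Q : ℝ → ℝ := fun t => ∑ j ∈ range n, ∑ k ∈ range n, κ t j k ^ 2 * (w j * w k) with hQ
  have hd : ∀ t, HasDerivAt Φ (2 * t * Q t) t := by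
    intro t
    have : HasDerivAt Φ (∑ j ∈ range n, ∑ k ∈ range n, 2 * t * κ t j k ^ 2 * (w j * w k)) t :=
      HasDerivAt.fun_sum (fun j _ => HasDerivAt.fun_sum (fun k _ =>
        (bt_deriv F t j k).mul_const _))
    refine this.congr_deriv ?_
    rw [hQ, Finset.mul_sum]
    refine Finset.sum_congr rfl (fun j _ => ?_)
    rw [Finset.mul_sum]
    refine Finset.sum_congr rfl (fun k _ => by ring)
  have hQc : Continuous Q := by
    refine continuous_finsetSum _ (fun j _ => continuous_finsetSum _ (fun k _ => ?_))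
    have := F.cont j k
    fun_prop
  have hQnn : ∀ t, 0 ≤ t → t ≤ 1 → 0 ≤ Q t := by
    intro t h0 h1
    exact (F.kgram t (by nlinarith)).sq_nonneg n w
  have hQ0 : 0 < Q 0 := by
    have e : Q 0 = ∑ j ∈ range n, κ 0 j j ^ 2 * (w j * w j) := by
      simp only [hQ]
      refine Finset.sum_congr rfl (fun j hj => ?_)
      rw [Finset.sum_eq_single_of_mem j hj]
      intro k _ hk
      rw [F.kzero_off j k (by exact_mod_cast hk.symm)]
      ring
    rw [e]
    obtain ⟨j, hj, hwj⟩ := hw
    refine Finset.sum_pos' (fun i _ => ?_) ⟨j, mem_range.mpr hj, ?_⟩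
    · exact mul_nonneg (sq_nonneg _) (mul_self_nonneg _)
    · have := F.kzero_pos j hj
      exact mul_pos (by positivity) (mul_self_pos.mpr hwj)
  have hΦ0 : Φ 0 = 0 := by
    simp only [hΦ, bt_zero F]
    simp
  have hΦ1 : Φ 1 = ∑ j ∈ range n, ∑ k ∈ range n, bb (cf s y) j k * (w j * w k) := by
    simp only [hΦ, bt_one' F]
  have hΦc : Continuous Φ := continuous_iff_continuousAt.mpr (fun t => (hd t).continuousAt)
  obtain ⟨δ, hδ0, hδ⟩ : ∃ δ > 0, ∀ t, |t| < δ → 0 < Q t := by
    have := hQc.continuousAt (x := 0)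
    have h := this.eventually (lt_mem_nhds hQ0)
    obtain ⟨δ, hδ, h'⟩ := Metric.eventually_nhds_iff.mp h
    exact ⟨δ, hδ, fun t ht => h' (by simpa [Real.dist_eq] using ht)⟩
  set δ' := min (δ / 2) 1 with hδ'
  have hδ'0 : 0 < δ' := lt_min (by linarith) one_pos
  have hδ'1 : δ' ≤ 1 := min_le_right _ _
  have hδ'δ : δ' < δ := lt_of_le_of_lt (min_le_left _ _) (by linarith)
  have hstrict : StrictMonoOn Φ (Set.Icc 0 δ') := by
    refine strictMonoOn_of_deriv_pos (convex_Icc _ _) hΦc.continuousOn (fun t ht => ?_)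
    rw [interior_Icc] at ht
    rw [(hd t).deriv]
    have : 0 < Q t := hδ t (by rw [abs_of_pos ht.1]; linarith [ht.2])
    have := ht.1
    positivity
  have hmono : MonotoneOn Φ (Set.Icc 0 1) := by
    refine monotoneOn_of_deriv_nonneg (convex_Icc _ _) hΦc.continuousOn
      (fun t _ => (hd t).differentiableAt.differentiableWithinAt) (fun t ht => ?_)
    rw [interior_Icc] at ht
    rw [(hd t).deriv]
    exact mul_nonneg (by linarith [ht.1]) (hQnn t ht.1.le ht.2.le)
  have h1 := hstrict ⟨le_refl _, hδ'0.le⟩ ⟨hδ'0.le, le_refl _⟩ hδ'0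
  have h2 := hmono ⟨hδ'0.le, hδ'1⟩ ⟨zero_le_one, le_refl _⟩ hδ'1
  rw [← hΦ1]
  rw [hΦ0] at h1
  exact lt_of_lt_of_le h1 h2

/-- `m ∘ m` has a nonnegative quadratic form -/
lemma mm_sq_nonneg (s : Finset ℕ) (y : ℕ → ℝ) (hy : ∀ l ∈ s, 0 < y l) (w : ℕ → ℝ) :
    0 ≤ ∑ j ∈ range s.card, ∑ k ∈ range s.card, mm s y j k ^ 2 * (w j * w k) := by
  have e1 : ∀ j k : ℕ, mm s y j k ^ 2 * (w j * w k)
      = ∑ l ∈ s, ∑ l' ∈ s, (y l * y l') *
        ((cf (s.erase l) y j * cf (s.erase l') y j * w j) *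
          (cf (s.erase l) y k * cf (s.erase l') y k * w k)) := by
    intro j k
    unfold mm
    rw [sq, Finset.sum_mul_sum, Finset.sum_mul]
    refine Finset.sum_congr rfl (fun α _ => ?_)
    rw [Finset.sum_mul]
    refine Finset.sum_congr rfl (fun β _ => ?_)
    ring
  have e : ∑ j ∈ range s.card, ∑ k ∈ range s.card, mm s y j k ^ 2 * (w j * w k)
      = ∑ l ∈ s, ∑ l' ∈ s, (y l * y l') *
        (∑ j ∈ range s.card, cf (s.erase l) y j * cf (s.erase l') y j * w j) ^ 2 := by
    simp_rw [e1]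
    rw [Finset.sum_congr rfl (fun j _ => Finset.sum_comm), Finset.sum_comm]
    refine Finset.sum_congr rfl (fun α _ => ?_)
    rw [Finset.sum_congr rfl (fun j _ => Finset.sum_comm), Finset.sum_comm]
    refine Finset.sum_congr rfl (fun β _ => ?_)
    rw [sq, Finset.sum_mul_sum, Finset.mul_sum]
    refine Finset.sum_congr rfl (fun j _ => ?_)
    rw [Finset.mul_sum]
  rw [e]
  exact Finset.sum_nonneg (fun l hl => Finset.sum_nonneg (fun l' hl' =>
    mul_nonneg (mul_nonneg (hy l hl).le (hy l' hl').le) (sq_nonneg _)))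

lemma betaPos {c : ℝ} (hc : 0 ≤ c) (s : Finset ℕ) (y : ℕ → ℝ) (hy : ∀ l ∈ s, 0 < y l) :
    BetaPos c s y := by
  intro w hw
  have h1 := bb_pos s y hy w hw
  have h2 := mm_sq_nonneg s y hy w
  have e : ∑ j ∈ range s.card, ∑ k ∈ range s.card,
      (c * mm s y j k ^ 2 + bb (cf s y) j k) * (w j * w k)
      = c * (∑ j ∈ range s.card, ∑ k ∈ range s.card, mm s y j k ^ 2 * (w j * w k))
        + ∑ j ∈ range s.card, ∑ k ∈ range s.card, bb (cf s y) j k * (w j * w k) := by
    rw [Finset.mul_sum, ← Finset.sum_add_distrib]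
    refine Finset.sum_congr rfl (fun j _ => ?_)
    rw [Finset.mul_sum, ← Finset.sum_add_distrib]
    refine Finset.sum_congr rfl (fun k _ => by ring)
  rw [e]
  have := mul_nonneg hc h2
  linarith

/-- **`STAR_c ≥ 0` alone excludes extremal points.** -/
theorem noEP_of_star' {r : ℝ} (hr : 2 ≤ r) (hr3 : r < 3)
    (H : ∀ (s : Finset ℕ) (y : ℕ → ℝ), s.Nonempty → (∀ l ∈ s, 0 < y l) →
      ∃ c : ℝ, 0 ≤ c ∧ StarNonneg c s y) : NoEP r :=
  noEP_of_star hr hr3 (fun s y hs hy => by
    obtain ⟨c, hc, h⟩ := H s y hs hy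
    exact ⟨c, hc, betaPos hc s y hy, h⟩)

end Pool.Agent.ST11
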