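import Mathlib
import Pool.Agent.ST11.BPos
import Pool.Agent.ST50.Final

/-!
# ST11: `STAR_c ≥ 0` for all positive `y` gives the classification of preservers
-/

open Polynomial Finset

namespace Pool.Agent.ST11

open Pool.Agent.ST50

/-- the hypothesis `STAR ≥ 0` (with a factor `c ≥ 0` in front of `m²`, which may depend on `y`) -/
def StarHyp : Prop :=
  ∀ (s : Finset ℕ) (y : ℕ → ℝ), s.Nonempty → (∀ l ∈ s, 0 < y l) →
    ∃ c : ℝ, 0 ≤ c ∧ StarNonneg c s y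

theorem noEP_of_starHyp (H : StarHyp) : ∀ r, 2 ≤ r → r < 3 → NoEP r :=
  fun _ h2 h3 => noEP_of_star' h2 h3 H

theorem pf_rpow_of_starHyp (H : StarHyp) {n : ℕ} {a : ℕ → ℝ} (ha : Pool.Agent.H62LR.PF n a)
    {r : ℝ} (hr : 2 ≤ r) : Pool.Agent.H62LR.PF n (fun k => a k ^ r) :=
  pf_rpow (noEP_of_starHyp H) ha hr

end Pool.Agent.ST11
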